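import Mathlib
import Pool.Agent.X236.SC.Bound

/-!
# Almost no curve `X³ + Y³ = A` has a rational point of height less than `A ^ (4/3 - ε)`

`C_A : X³ + Y³ = A`. A point of `C_A(ℚ)` other than `𝒪` is a pair of rational numbers `(X, Y)` with
`X³ + Y³ = A`, for instance `X = x / z`, `Y = y / z` in lowest terms. For `1 ≤ Z ≤ N` all the integers
`1 ≤ A ≤ N` but at most `C N^ε (N^(2/3) + N^(1/3) Z^(2/3))` have the property that all these points have a
denominator `z > Z` and a numerator with `max (|x|, |y|) ^ 3 > A Z³ / 2`. With `Z = N^(1 - δ)`: for all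
`A ≤ N` with `O(N^(1 - δ/2))` exceptions every element of every generating set of `C_A(ℚ)`, other than
`𝒪`, has a denominator at least `N^(1 - δ)`, and a height at least `N^(4/3 - 2 δ)`. So no procedure which
inspects only the points up to such a height finds a generating set, except for a sparse set of `A`.
-/

set_option autoImplicit false

namespace Pool.Agent.Results.MP_8e0b0b_nt.SmallPointsAreRare

open Finset

/-- the point `(X, Y)` has denominators larger than `Z` and a numerator `m` with `m³ > A Z³ / 2` -/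
def Large (A Z : ℕ) (X Y : ℚ) : Prop :=
  Z < X.den ∧ Z < Y.den ∧ (A : ℝ) / 2 * (Z : ℝ) ^ 3 < (max |(X.num : ℝ)| |(Y.num : ℝ)|) ^ 3

open Classical in
/-- **Theorem.** For every `ε > 0` there is `C` such that for all `N ≥ 1` and `Z ≤ N` all but at most
`C N^ε (N^(2/3) + N^(1/3) Z^(2/3))` of the integers `1 ≤ A ≤ N` are such that all rational points
`(X, Y)` of `X³ + Y³ = A` are large. -/
theorem result (ε : ℝ) (hε : 0 < ε) : ∃ C : ℝ, ∀ N Z : ℕ, 1 ≤ N → Z ≤ N →
    (((Icc 1 N).filter (fun A : ℕ =>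
      ¬ ∀ X Y : ℚ, X ^ 3 + Y ^ 3 = (A : ℚ) → Large A Z X Y)).card : ℝ) ≤
      C * (N : ℝ) ^ ε * ((N : ℝ) ^ (2 / 3 : ℝ) + (N : ℝ) ^ (1 / 3 : ℝ) * (Z : ℝ) ^ (2 / 3 : ℝ)) := by
  obtain ⟨C, -, hC⟩ := Pool.Agent.X236.SC.main ε hε
  refine ⟨C, fun N Z hN hZ => le_trans ?_ (hC N Z hN hZ)⟩
  refine Nat.cast_le.2 (card_le_card ?_)
  intro A hA
  rw [mem_filter] at hA ⊢
  refine ⟨hA.1, ?_⟩
  by_contra hno
  refine hA.2 fun X Y hXY => ?_
  have h1 : Z < X.den := by
    by_contra hcon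
    exact hno ⟨X, Y, hXY, not_lt.1 hcon⟩
  have h2 := Pool.Agent.X236.SC.dens hXY
  refine ⟨h1, by rw [h2]; exact h1, ?_⟩
  have h3 := Pool.Agent.X236.SC.eqn hXY
  have h4 : (X.num : ℝ) ^ 3 + (Y.num : ℝ) ^ 3 = (A : ℝ) * (X.den : ℝ) ^ 3 := by exact_mod_cast h3
  have hA0 : (0 : ℝ) < A := by
    have := (mem_Icc.1 hA.1).1
    exact_mod_cast this
  have h5 : (Z : ℝ) ^ 3 < (X.den : ℝ) ^ 3 := by
    have : (Z : ℝ) < X.den := by exact_mod_cast h1
    exact pow_lt_pow_left₀ this (by positivity) (by norm_num)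
  have h6 : (X.num : ℝ) ^ 3 ≤ (max |(X.num : ℝ)| |(Y.num : ℝ)|) ^ 3 := by
    calc (X.num : ℝ) ^ 3 ≤ |(X.num : ℝ)| ^ 3 := by
          rw [← abs_pow]
          exact le_abs_self _
      _ ≤ _ := pow_le_pow_left₀ (abs_nonneg _) (le_max_left _ _) 3
  have h7 : (Y.num : ℝ) ^ 3 ≤ (max |(X.num : ℝ)| |(Y.num : ℝ)|) ^ 3 := by
    calc (Y.num : ℝ) ^ 3 ≤ |(Y.num : ℝ)| ^ 3 := by
          rw [← abs_pow]
          exact le_abs_self _
      _ ≤ _ := pow_le_pow_left₀ (abs_nonneg _) (le_max_right _ _) 3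
  nlinarith

end Pool.Agent.Results.MP_8e0b0b_nt.SmallPointsAreRare
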