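import Pool.Agent.X20.Tr.UpPow
import Pool.Agent.Results.MP_8e0b0b_nt.SmallPointsAreRare

/-!
# Rational points on the curves `X ^ 3 + Y ^ 3 = a ⌊α n ^ c⌋ + b`

From Mathlib: `dimH E`: the Hausdorff dimension; `⌊x⌋₊`: the integer part; `Finset.Icc 1 N`: the integers from `1` to
`N`; `X.num`, `X.den`: numerator and denominator of the rational number `X` in lowest terms.
-/

set_option autoImplicit false

namespace Pool.Agent.Results.MP_8e0b0b_nt.AlongDilatedPowers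

open Finset Filter
open Pool.Agent.X20.Tr
open Pool.Agent.Y854.PS (ms xs)

/-- the point `(X, Y)` of `X ^ 3 + Y ^ 3 = A` is large: its denominators are larger than `A ^ (1 - δ)`, and the larger
one of its numerators is larger than `(A ^ (4 - 3 δ) / 2) ^ (1 / 3)` -/
def Large (δ : ℝ) (A : ℕ) (X Y : ℚ) : Prop :=
  (A : ℝ) ^ (1 - δ) < X.den ∧ (A : ℝ) ^ (1 - δ) < Y.den ∧
    (A : ℝ) ^ (4 - 3 * δ) / 2 < (max |(X.num : ℝ)| |(Y.num : ℝ)|) ^ 3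

/-- `A ≠ 0`, and the curve `X ^ 3 + Y ^ 3 = A` has a rational point (other than the point at infinity) which is not
large -/
def HasSmallPoint (δ : ℝ) (A : ℕ) : Prop := A ≠ 0 ∧ ∃ X Y : ℚ, X ^ 3 + Y ^ 3 = (A : ℚ) ∧ ¬ Large δ A X Y

lemma cnt_le (δ : ℝ) (hδ : 0 < δ) (hδ1 : δ ≤ 1) (a b : ℕ) (ha : 0 < a) : ∃ C : ℝ, ∀ X : ℕ, 1 ≤ X →
    (cnt {m : ℕ | HasSmallPoint δ (a * m + b)} X : ℝ) ≤ C * (X : ℝ) ^ (1 - δ / 6) := by
  classical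
  obtain ⟨C, hC⟩ := SmallPointsAreRare.result (δ / 6) (by positivity)
  refine ⟨max C 0 * (3 * ((a : ℝ) + b) ^ (1 - δ / 6)), fun X hX => ?_⟩
  obtain ⟨K, hK⟩ : ∃ K : ℕ, K = (a + b) * X := ⟨_, rfl⟩
  have hK1 : 1 ≤ K := by
    rw [hK]
    exact Nat.mul_pos (by omega) hX
  have hK1' : (1 : ℝ) ≤ K := by exact_mod_cast hK1
  have hK0 : (0 : ℝ) < K := by linarith
  obtain ⟨Z, hZ⟩ : ∃ Z : ℕ, Z = ⌈(K : ℝ) ^ (1 - δ)⌉₊ := ⟨_, rfl⟩
  have hZ1 : (K : ℝ) ^ (1 - δ) ≤ Z := by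
    rw [hZ]
    exact Nat.le_ceil _
  have hZK : Z ≤ K := by
    rw [hZ]
    apply Nat.ceil_le.2
    calc (K : ℝ) ^ (1 - δ) ≤ (K : ℝ) ^ (1 : ℝ) := Real.rpow_le_rpow_of_exponent_le hK1' (by linarith)
      _ = K := Real.rpow_one _
  have hone : (1 : ℝ) ≤ (K : ℝ) ^ (1 - δ) := Real.one_le_rpow hK1' (by linarith)
  have hZ2 : (Z : ℝ) ≤ 2 * (K : ℝ) ^ (1 - δ) := by
    rw [hZ]
    have := Nat.ceil_lt_add_one (a := (K : ℝ) ^ (1 - δ)) (by positivity)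
    linarith
  have h1 := hC K Z hK1 hZK
  -- the injection
  have h2 : cnt {m : ℕ | HasSmallPoint δ (a * m + b)} X ≤
      ((Icc 1 K).filter (fun A : ℕ => ¬ ∀ X Y : ℚ, X ^ 3 + Y ^ 3 = (A : ℚ) →
        SmallPointsAreRare.Large A Z X Y)).card := by
    have h3 : (((Icc 1 X).filter (fun m : ℕ => m ∈ {m : ℕ | HasSmallPoint δ (a * m + b)})).image
        (fun m : ℕ => a * m + b)) ⊆ (Icc 1 K).filter (fun A : ℕ => ¬ ∀ X Y : ℚ, X ^ 3 + Y ^ 3 = (A : ℚ) →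
        SmallPointsAreRare.Large A Z X Y) := by
      intro A hA
      rw [mem_image] at hA
      obtain ⟨m, hm, rfl⟩ := hA
      rw [mem_filter, mem_Icc] at hm
      obtain ⟨⟨hm1, hm2⟩, _, x, y, hxy, hno⟩ := hm
      rw [mem_filter, mem_Icc]
      have hA1 : 1 ≤ a * m + b := by
        have := Nat.mul_pos ha hm1
        omega
      have hAK : a * m + b ≤ K := by
        rw [hK]
        calc a * m + b ≤ a * X + b * X := Nat.add_le_add (Nat.mul_le_mul_left _ hm2) (Nat.le_mul_of_pos_right _ hX)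
          _ = (a + b) * X := by ring
      have hA0 : (0 : ℝ) < ((a * m + b : ℕ) : ℝ) := by exact_mod_cast hA1
      have hAK' : ((a * m + b : ℕ) : ℝ) ≤ K := by exact_mod_cast hAK
      refine ⟨⟨hA1, hAK⟩, fun hall => hno ?_⟩
      obtain ⟨l1, l2, l3⟩ := hall x y hxy
      have hpz : ((a * m + b : ℕ) : ℝ) ^ (1 - δ) ≤ Z :=
        (Real.rpow_le_rpow hA0.le hAK' (by linarith)).trans hZ1
      have l1' : (Z : ℝ) < x.den := by exact_mod_cast l1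
      have l2' : (Z : ℝ) < y.den := by exact_mod_cast l2
      refine ⟨lt_of_le_of_lt hpz l1', lt_of_le_of_lt hpz l2', lt_of_le_of_lt ?_ l3⟩
      have e1 : ((a * m + b : ℕ) : ℝ) ^ (4 - 3 * δ) =
          ((a * m + b : ℕ) : ℝ) * (((a * m + b : ℕ) : ℝ) ^ (1 - δ)) ^ 3 := by
        rw [← Real.rpow_natCast (((a * m + b : ℕ) : ℝ) ^ (1 - δ)) 3, ← Real.rpow_mul hA0.le]
        nth_rewrite 2 [← Real.rpow_one ((a * m + b : ℕ) : ℝ)]
        rw [← Real.rpow_add hA0]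
        congr 1
        push_cast
        ring
      rw [e1]
      have h5 : (((a * m + b : ℕ) : ℝ) ^ (1 - δ)) ^ 3 ≤ (Z : ℝ) ^ 3 := by gcongr
      have := mul_le_mul_of_nonneg_left h5 hA0.le
      linarith
    have h4 := card_le_card h3
    rw [card_image_of_injective] at h4
    · exact le_trans (le_of_eq (card_filt _ fun _ => Iff.rfl)) h4
    · intro m m' h
      have h' : a * m + b = a * m' + b := h
      have h5 : a * m = a * m' := by omega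
      exact Nat.eq_of_mul_eq_mul_left ha h5
  have h3 : (cnt {m : ℕ | HasSmallPoint δ (a * m + b)} X : ℝ) ≤
      C * (K : ℝ) ^ (δ / 6) * ((K : ℝ) ^ (2 / 3 : ℝ) + (K : ℝ) ^ (1 / 3 : ℝ) * (Z : ℝ) ^ (2 / 3 : ℝ)) :=
    le_trans (by exact_mod_cast h2) h1
  have hZ3 : (Z : ℝ) ^ (2 / 3 : ℝ) ≤ 2 * (K : ℝ) ^ (2 / 3 * (1 - δ)) := by
    calc (Z : ℝ) ^ (2 / 3 : ℝ) ≤ (2 * (K : ℝ) ^ (1 - δ)) ^ (2 / 3 : ℝ) :=
          Real.rpow_le_rpow (Nat.cast_nonneg _) hZ2 (by norm_num)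
      _ = 2 ^ (2 / 3 : ℝ) * (K : ℝ) ^ (2 / 3 * (1 - δ)) := by
          rw [Real.mul_rpow (by norm_num) (by positivity), ← Real.rpow_mul hK0.le]
          congr 2
          ring
      _ ≤ 2 * (K : ℝ) ^ (2 / 3 * (1 - δ)) := by
          apply mul_le_mul_of_nonneg_right _ (by positivity)
          calc (2 : ℝ) ^ (2 / 3 : ℝ) ≤ (2 : ℝ) ^ (1 : ℝ) :=
                Real.rpow_le_rpow_of_exponent_le (by norm_num) (by norm_num)
            _ = 2 := Real.rpow_one _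
  have h4 : (K : ℝ) ^ (δ / 6) * ((K : ℝ) ^ (2 / 3 : ℝ) + (K : ℝ) ^ (1 / 3 : ℝ) * (Z : ℝ) ^ (2 / 3 : ℝ)) ≤
      3 * (K : ℝ) ^ (1 - δ / 6) := by
    have k1 : (K : ℝ) ^ (δ / 6) * (K : ℝ) ^ (2 / 3 : ℝ) ≤ (K : ℝ) ^ (1 - δ / 6) := by
      rw [← Real.rpow_add hK0]
      exact Real.rpow_le_rpow_of_exponent_le hK1' (by linarith)
    have k2 : (K : ℝ) ^ (δ / 6) * ((K : ℝ) ^ (1 / 3 : ℝ) * (K : ℝ) ^ (2 / 3 * (1 - δ))) ≤
        (K : ℝ) ^ (1 - δ / 6) := by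
      rw [← Real.rpow_add hK0, ← Real.rpow_add hK0]
      exact Real.rpow_le_rpow_of_exponent_le hK1' (by linarith)
    have k3 : (K : ℝ) ^ (δ / 6) * ((K : ℝ) ^ (1 / 3 : ℝ) * (Z : ℝ) ^ (2 / 3 : ℝ)) ≤
        2 * ((K : ℝ) ^ (δ / 6) * ((K : ℝ) ^ (1 / 3 : ℝ) * (K : ℝ) ^ (2 / 3 * (1 - δ)))) := by
      have := mul_le_mul_of_nonneg_left hZ3 (by positivity : 0 ≤ (K : ℝ) ^ (δ / 6) * (K : ℝ) ^ (1 / 3 : ℝ))
      linarith
    rw [mul_add]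
    linarith
  have h5 : (K : ℝ) ^ (1 - δ / 6) = ((a : ℝ) + b) ^ (1 - δ / 6) * (X : ℝ) ^ (1 - δ / 6) := by
    rw [hK]
    push_cast
    rw [Real.mul_rpow (by positivity) (by positivity)]
  calc (cnt {m : ℕ | HasSmallPoint δ (a * m + b)} X : ℝ)
      ≤ C * ((K : ℝ) ^ (δ / 6) * ((K : ℝ) ^ (2 / 3 : ℝ) + (K : ℝ) ^ (1 / 3 : ℝ) * (Z : ℝ) ^ (2 / 3 : ℝ))) := by
        rw [← mul_assoc]
        exact h3
    _ ≤ max C 0 * ((K : ℝ) ^ (δ / 6) * ((K : ℝ) ^ (2 / 3 : ℝ) + (K : ℝ) ^ (1 / 3 : ℝ) * (Z : ℝ) ^ (2 / 3 : ℝ))) :=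
        mul_le_mul_of_nonneg_right (le_max_left _ _) (by positivity)
    _ ≤ max C 0 * (3 * (K : ℝ) ^ (1 - δ / 6)) := mul_le_mul_of_nonneg_left h4 (le_max_right _ _)
    _ = max C 0 * (3 * ((a : ℝ) + b) ^ (1 - δ / 6)) * (X : ℝ) ^ (1 - δ / 6) := by
        rw [h5]
        ring

lemma mono {δ δ' : ℝ} (h : δ' ≤ δ) {A : ℕ} (hs : HasSmallPoint δ A) : HasSmallPoint δ' A := by
  obtain ⟨hA, X, Y, h1, h2⟩ := hs
  refine ⟨hA, X, Y, h1, fun h3 => h2 ?_⟩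
  obtain ⟨l1, l2, l3⟩ := h3
  have hA' : (1 : ℝ) ≤ A := by exact_mod_cast Nat.one_le_iff_ne_zero.2 hA
  have k1 : (A : ℝ) ^ (1 - δ) ≤ (A : ℝ) ^ (1 - δ') := Real.rpow_le_rpow_of_exponent_le hA' (by linarith)
  have k2 : (A : ℝ) ^ (4 - 3 * δ) ≤ (A : ℝ) ^ (4 - 3 * δ') := Real.rpow_le_rpow_of_exponent_le hA' (by linarith)
  exact ⟨lt_of_le_of_lt k1 l1, lt_of_le_of_lt k1 l2, lt_of_le_of_lt (by linarith) l3⟩

open Classical in
/-- For every real `c > 1` there are `κ > 0` and a set `E` of real numbers of Hausdorff dimension at most `1 - κ`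
such that for every real `α > 0` outside `E`, all integers `a ≥ 1`, `b ≥ 0` and all real `0 < δ ≤ 1`, writing
`m(n) = ⌊α n ^ c⌋`: for every `κ' ≥ 0` with `κ' < κ`, `κ' < δ / 12` and all large `N`, for all but at most
`N ^ (1 - κ')` of the integers `n ≤ N` every rational point of the curve `X ^ 3 + Y ^ 3 = A`, `A = a m(n) + b`, other
than the point at infinity, has denominators larger than `A ^ (1 - δ)` and a numerator `x` with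
`|x| ^ 3 > A ^ (4 - 3 δ) / 2`. -/
theorem result (c : ℝ) (hc : 1 < c) : ∃ κ : ℝ, 0 < κ ∧ κ < 1 ∧ ∃ E : Set ℝ, dimH E ≤ ENNReal.ofReal (1 - κ) ∧
    ∀ α : ℝ, 0 < α → α ∉ E → ∀ a b : ℕ, 0 < a → ∀ δ : ℝ, 0 < δ → δ ≤ 1 → ∀ κ' : ℝ, 0 ≤ κ' → κ' < κ → κ' < δ / 12 →
      ∃ N₀ : ℕ, ∀ N : ℕ, N₀ ≤ N →
        (((Icc 1 N).filter (fun n : ℕ => HasSmallPoint δ (a * ⌊α * (n : ℝ) ^ c⌋₊ + b))).card : ℝ) ≤
          (N : ℝ) ^ (1 - κ') := by
  obtain ⟨κ, hκ0, hκ1, H⟩ := use c hc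
  obtain ⟨E, hE, h⟩ := H (fun _ _ => ∅) ((ℕ × ℕ) × ℚ)
    (fun i => {m : ℕ | HasSmallPoint (i.2 : ℝ) (i.1.1 * m + i.1.2)})
  refine ⟨κ, hκ0, hκ1, E, hE, fun α hα hαE a b ha δ hδ hδ1 κ' hκ' hκκ hκδ => ?_⟩
  obtain ⟨_, _, h3⟩ := h α hα hαE
  obtain ⟨q, hq1, hq2⟩ := exists_rat_btwn (by linarith : 12 * κ' < δ)
  have hq0 : (0 : ℝ) < q := by linarith
  obtain ⟨N₁, h4⟩ := up_pow hc hα hκ0 (δ := q / 6) (by positivity) (by linarith) (h3 ((a, b), q))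
    (cnt_le q hq0 (by linarith) a b ha) κ' hκ' hκκ (by linarith)
  refine ⟨N₁, fun N hN => ?_⟩
  have h5 : ((Icc 1 N).filter (fun n : ℕ => HasSmallPoint δ (a * ⌊α * (n : ℝ) ^ c⌋₊ + b))).card ≤
      hit c α {m : ℕ | HasSmallPoint (q : ℝ) (a * m + b)} N := by
    unfold hit
    apply card_le_card
    intro n hn
    rw [mem_filter] at hn
    exact mem_filt.2 ⟨hn.1, mono hq2.le hn.2⟩
  exact le_trans (Nat.cast_le.2 h5) (h4 N hN)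

end Pool.Agent.Results.MP_8e0b0b_nt.AlongDilatedPowers
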