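import Pool.Agent.Results.MP_8e0b0b_nt.SmallPointsAreRare
import Pool.Agent.X16.NW.E

/-!
# No curve `X³ + Y³ = A` with `A` near a real power `t ^ κ_n` or `n ^ t` has a small rational point

`C_A : X³ + Y³ = A`. Let `f_n(t)` be a family of functions of a real parameter `t` whose logarithmic slopes are locally
bounded from below by a positive constant and which locally is at least `w_n ≥ 1` for a sequence `w` of exponent of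
convergence at most `τ` (definition `Steep`). Examples: `t ^ κ_n` with `κ_n / log n → ∞` on `(1, ∞)`, `τ = 0`; `n ^ t` on
`[a, ∞)`, `τ = 1 / a`. Let `0 ≤ ζ ≤ 1`, `0 ≤ θ < 1`. For all `t` outside a set of Hausdorff dimension at most
`(max (2 / 3, 1 / 3 + 2 ζ / 3) + τ) / (1 - θ)`, for all large `n`, ALL integers `A ≥ 1` with
`|A - f_n(t)| ≤ f_n(t) ^ θ` have the property that all rational points of `C_A` other than `𝒪`, in particular all members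
of all generating sets, have denominators larger than `A ^ ζ` and numerators with
`max (|x|, |y|) ^ 3 > A ^ (1 + 3 ζ) / 2`.
-/

set_option autoImplicit false

open Filter MeasureTheory

namespace Pool.Agent.Results.MP_8e0b0b_nt.RealPowers

open SmallPointsAreRare Finset

/-- the exponent of convergence of the sequence `w` is at most `τ` -/
def ExpLe (w : ℕ → ℝ) (τ : ℝ) : Prop := ∀ p : ℝ, τ < p → Summable (fun n : ℕ => (w n) ^ (-p))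

/-- The set `I` of parameters is a countable union of sets `J`, such that on `J`, for all large `n`, `f_n ≥ w_n ≥ 1` for
a sequence `w` of exponent of convergence at most `τ` and the logarithmic slopes of `f_n` are at least `c > 0`. -/
def Steep (f : ℕ → ℝ → ℝ) (I : Set ℝ) (τ : ℝ) : Prop :=
  ∃ J : ℕ → Set ℝ, I ⊆ ⋃ m, J m ∧ ∀ m, ∃ (w : ℕ → ℝ) (c : ℝ) (n₁ : ℕ), 0 < c ∧ ExpLe w τ ∧
    ∀ n, n₁ ≤ n → 1 ≤ w n ∧ ∀ t ∈ J m, w n ≤ f n t ∧ ∀ u ∈ J m, t ≤ u → c * f n t * (u - t) ≤ f n u - f n t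

/-- all rational points of `X³ + Y³ = A` have denominators larger than `A ^ ζ` and numerators with
`max (|x|, |y|) ^ 3 > A ^ (1 + 3 ζ) / 2` -/
def Big (A : ℕ) (ζ : ℝ) : Prop :=
  ∀ X Y : ℚ, X ^ 3 + Y ^ 3 = (A : ℚ) → (A : ℝ) ^ ζ < X.den ∧ (A : ℝ) ^ ζ < Y.den ∧
    (A : ℝ) ^ (1 + 3 * ζ) / 2 < (max |(X.num : ℝ)| |(Y.num : ℝ)|) ^ 3

theorem big_of_den {A : ℕ} {ζ : ℝ} (hA : 1 ≤ A)
    (h : ∀ X Y : ℚ, X ^ 3 + Y ^ 3 = (A : ℚ) → (A : ℝ) ^ ζ < X.den) : Big A ζ := by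
  intro X Y hXY
  have h1 := h X Y hXY
  have h2 := Pool.Agent.X236.SC.dens hXY
  refine ⟨h1, by rw [h2]; exact h1, ?_⟩
  have h3 := Pool.Agent.X236.SC.eqn hXY
  have h4 : (X.num : ℝ) ^ 3 + (Y.num : ℝ) ^ 3 = (A : ℝ) * (X.den : ℝ) ^ 3 := by exact_mod_cast h3
  have hA0 : (0 : ℝ) < A := by exact_mod_cast hA
  have h5 : ((A : ℝ) ^ ζ) ^ 3 < (X.den : ℝ) ^ 3 :=
    pow_lt_pow_left₀ h1 (by positivity) (by norm_num)
  have h6 : (X.num : ℝ) ^ 3 ≤ (max |(X.num : ℝ)| |(Y.num : ℝ)|) ^ 3 := by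
    calc (X.num : ℝ) ^ 3 ≤ |(X.num : ℝ)| ^ 3 := by
          rw [← abs_pow]
          exact le_abs_self _
      _ ≤ _ := pow_le_pow_left₀ (abs_nonneg _) (le_max_left _ _) 3
  have h7 : (Y.num : ℝ) ^ 3 ≤ (max |(X.num : ℝ)| |(Y.num : ℝ)|) ^ 3 := by
    calc (Y.num : ℝ) ^ 3 ≤ |(Y.num : ℝ)| ^ 3 := by
          rw [← abs_pow]
          exact le_abs_self _
      _ ≤ _ := pow_le_pow_left₀ (abs_nonneg _) (le_max_right _ _) 3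
  have h8 : (A : ℝ) ^ (1 + 3 * ζ) = A * ((A : ℝ) ^ ζ) ^ 3 := by
    rw [Real.rpow_add hA0, Real.rpow_one, mul_comm 3 ζ, Real.rpow_mul hA0.le]
    norm_cast
  rw [h8]
  nlinarith

/-- the exponent of the number of exceptions -/
noncomputable def expo (ζ : ℝ) : ℝ := max (2 / 3) (1 / 3 + 2 / 3 * ζ)

theorem count (ζ : ℝ) (h0 : 0 ≤ ζ) (h1 : ζ ≤ 1) (ε : ℝ) (hε : 0 < ε) : ∃ C : ℝ, ∀ X : ℕ, 1 ≤ X →
    ({A : ℕ | A ∈ {A : ℕ | 1 ≤ A ∧ ¬ Big A ζ} ∧ A ≤ X}.ncard : ℝ) ≤ C * (X : ℝ) ^ (expo ζ + ε) := by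
  classical
  obtain ⟨C, hC⟩ := SmallPointsAreRare.result ε hε
  refine ⟨|C| * 2, fun X hX => ?_⟩
  have hX0 : (0 : ℝ) < X := by exact_mod_cast hX
  have hX1 : (1 : ℝ) ≤ X := by exact_mod_cast hX
  set Z : ℕ := ⌊(X : ℝ) ^ ζ⌋₊ with hZ
  have hZX : (Z : ℝ) ≤ (X : ℝ) ^ ζ := Nat.floor_le (by positivity)
  have hZN : Z ≤ X := by
    have h2 : (X : ℝ) ^ ζ ≤ X := by
      calc (X : ℝ) ^ ζ ≤ (X : ℝ) ^ (1 : ℝ) := Real.rpow_le_rpow_of_exponent_le hX1 h1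
        _ = X := Real.rpow_one _
    exact_mod_cast hZX.trans h2
  have hsub : {A : ℕ | A ∈ {A : ℕ | 1 ≤ A ∧ ¬ Big A ζ} ∧ A ≤ X} ⊆
      (((Icc 1 X).filter (fun A : ℕ =>
        ¬ ∀ X Y : ℚ, X ^ 3 + Y ^ 3 = (A : ℚ) → Large A Z X Y) : Finset ℕ) : Set ℕ) := by
    rintro A ⟨⟨hA1, hA2⟩, hAX⟩
    have hA3 : (A : ℝ) ≤ X := by exact_mod_cast hAX
    rw [mem_coe, mem_filter, mem_Icc]
    refine ⟨⟨hA1, hAX⟩, fun hL => hA2 (big_of_den hA1 fun U V hUV => ?_)⟩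
    have h3 : Z < U.den := (hL U V hUV).1
    have h4 : (A : ℝ) ^ ζ ≤ (X : ℝ) ^ ζ := Real.rpow_le_rpow (Nat.cast_nonneg _) hA3 h0
    refine lt_of_le_of_lt h4 ?_
    exact (Nat.floor_lt (by positivity)).1 h3
  have h5 : (({A : ℕ | A ∈ {A : ℕ | 1 ≤ A ∧ ¬ Big A ζ} ∧ A ≤ X}.ncard : ℕ) : ℝ) ≤
      C * (X : ℝ) ^ ε * ((X : ℝ) ^ (2 / 3 : ℝ) + (X : ℝ) ^ (1 / 3 : ℝ) * (Z : ℝ) ^ (2 / 3 : ℝ)) := by
    refine le_trans ?_ (hC X Z hX hZN)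
    have h6 := Set.ncard_le_ncard hsub (Finset.finite_toSet _)
    rw [Set.ncard_coe_finset] at h6
    exact_mod_cast h6
  refine h5.trans ?_
  have h7 : (X : ℝ) ^ (2 / 3 : ℝ) ≤ (X : ℝ) ^ (expo ζ) :=
    Real.rpow_le_rpow_of_exponent_le hX1 (le_max_left _ _)
  have h8 : (X : ℝ) ^ (1 / 3 : ℝ) * (Z : ℝ) ^ (2 / 3 : ℝ) ≤ (X : ℝ) ^ (expo ζ) := by
    calc (X : ℝ) ^ (1 / 3 : ℝ) * (Z : ℝ) ^ (2 / 3 : ℝ)
        ≤ (X : ℝ) ^ (1 / 3 : ℝ) * ((X : ℝ) ^ ζ) ^ (2 / 3 : ℝ) :=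
          mul_le_mul_of_nonneg_left (Real.rpow_le_rpow (Nat.cast_nonneg _) hZX (by norm_num))
            (by positivity)
      _ = (X : ℝ) ^ (1 / 3 + 2 / 3 * ζ) := by
          rw [← Real.rpow_mul hX0.le, ← Real.rpow_add hX0]
          ring_nf
      _ ≤ _ := Real.rpow_le_rpow_of_exponent_le hX1 (le_max_right _ _)
  calc C * (X : ℝ) ^ ε * ((X : ℝ) ^ (2 / 3 : ℝ) + (X : ℝ) ^ (1 / 3 : ℝ) * (Z : ℝ) ^ (2 / 3 : ℝ))
      ≤ |C| * (X : ℝ) ^ ε * ((X : ℝ) ^ (2 / 3 : ℝ) + (X : ℝ) ^ (1 / 3 : ℝ) * (Z : ℝ) ^ (2 / 3 : ℝ)) := by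
        refine mul_le_mul_of_nonneg_right ?_ (by positivity)
        exact mul_le_mul_of_nonneg_right (le_abs_self C) (by positivity)
    _ ≤ |C| * (X : ℝ) ^ ε * ((X : ℝ) ^ (expo ζ) + (X : ℝ) ^ (expo ζ)) :=
        mul_le_mul_of_nonneg_left (add_le_add h7 h8) (by positivity)
    _ = |C| * 2 * (X : ℝ) ^ (expo ζ + ε) := by
        rw [Real.rpow_add hX0]
        ring

lemma expo_nonneg (ζ : ℝ) : 0 ≤ expo ζ := le_trans (by norm_num) (le_max_left _ _)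

lemma expo_lt {ζ θ : ℝ} (h : θ < min (1 / 3) (2 / 3 * (1 - ζ))) : expo ζ + θ < 1 := by
  have h2 := h.trans_le (min_le_left _ _)
  have h3 := h.trans_le (min_le_right _ _)
  unfold expo
  rcases max_choice (2 / 3 : ℝ) (1 / 3 + 2 / 3 * ζ) with h | h <;> rw [h] <;> linarith

/-- **Theorem.** (1) Let `f` be a steep family on `I` with exponent `τ ≥ 0`, `0 ≤ ζ ≤ 1` and `0 ≤ θ < 1`. There is a set
`E` of Hausdorff dimension at most `(max (2 / 3, 1 / 3 + 2 ζ / 3) + τ) / (1 - θ)` such that for each `t ∈ I` outside `E`,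
for all large `n`, ALL integers `A ≥ 1` with `|A - f_n(t)| ≤ f_n(t) ^ θ` are big.

(2), (3) The families `t ^ κ_n`, `κ_n / log n → ∞`, on `(1, ∞)` and `n ^ t` on `[a, ∞)` are steep with exponents `0` and
`1 / a`.

(4) If `κ_n / log n → ∞`, for almost all `t > 1`, for all `ζ` and `θ` with `0 ≤ ζ < 1` and
`0 ≤ θ < min (1 / 3, 2 (1 - ζ) / 3)`, for all large `n`, ALL integers `A ≥ 1` with `|A - t ^ κ_n| ≤ t ^ (θ κ_n)` are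
big. -/
theorem result :
    (∀ (f : ℕ → ℝ → ℝ) (I : Set ℝ) (τ ζ θ : ℝ), Steep f I τ → 0 ≤ τ → 0 ≤ ζ → ζ ≤ 1 → 0 ≤ θ → θ < 1 →
      ∃ E : Set ℝ, dimH E ≤ ENNReal.ofReal ((max (2 / 3) (1 / 3 + 2 / 3 * ζ) + τ) / (1 - θ)) ∧
        ∀ t ∈ I, t ∉ E → ∃ n₀ : ℕ, ∀ n : ℕ, n₀ ≤ n → ∀ A : ℕ, 1 ≤ A → |(A : ℝ) - f n t| ≤ (f n t) ^ θ →
          Big A ζ) ∧
    (∀ κ : ℕ → ℝ, Tendsto (fun n : ℕ => κ n / Real.log n) atTop atTop →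
      Steep (fun n t => t ^ κ n) (Set.Ioi (1 : ℝ)) 0) ∧
    (∀ a : ℝ, 0 < a → Steep (fun n t => (n : ℝ) ^ t) (Set.Ici a) (1 / a)) ∧
    (∀ κ : ℕ → ℝ, Tendsto (fun n : ℕ => κ n / Real.log n) atTop atTop →
      ∀ᵐ t : ℝ, 1 < t → ∀ ζ θ : ℝ, 0 ≤ ζ → ζ < 1 → 0 ≤ θ → θ < min (1 / 3) (2 / 3 * (1 - ζ)) →
        ∃ n₀ : ℕ, ∀ n : ℕ, n₀ ≤ n → ∀ A : ℕ, 1 ≤ A → |(A : ℝ) - t ^ κ n| ≤ (t ^ κ n) ^ θ → Big A ζ) := by
  have hcount : ∀ ζ : ℝ, 0 ≤ ζ → ζ ≤ 1 → ∀ ε : ℝ, 0 < ε → ∃ C : ℝ, ∀ X : ℝ, 1 ≤ X →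
      {A : ℕ | A ∈ {A : ℕ | 1 ≤ A ∧ ¬ Big A ζ} ∧ (A : ℝ) ≤ X}.Finite ∧
      ({A : ℕ | A ∈ {A : ℕ | 1 ≤ A ∧ ¬ Big A ζ} ∧ (A : ℝ) ≤ X}.ncard : ℝ) ≤ C * X ^ (expo ζ + ε) :=
    fun ζ h0 h1 ε hε => Pool.Agent.X16.NW.count_nat _ (expo_nonneg ζ) (count ζ h0 h1) ε hε
  refine ⟨fun f I τ ζ θ hf hτ h0 h1 hθ0 hθ => ?_, fun κ hκ => Pool.Agent.X16.NW.loc_rpow κ hκ,
    fun a ha => Pool.Agent.X16.NW.loc_npow a ha, fun κ hκ => ?_⟩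
  · obtain ⟨E, h2, h3⟩ := Pool.Agent.X16.NW.windows_loc {A : ℕ | 1 ≤ A ∧ ¬ Big A ζ} (fun k : ℕ => (k : ℝ)) hτ
      (expo_nonneg ζ) hθ0 hθ (hcount ζ h0 h1) I f hf
    refine ⟨E, h2, fun t ht htE => ?_⟩
    obtain ⟨n₀, hn⟩ := h3 t ht htE
    refine ⟨n₀, fun n hn1 A hA hw => ?_⟩
    by_contra hcon
    exact absurd (hn n hn1 A ⟨hA, hcon⟩) (not_lt.2 hw)
  · have hk0 : ∀ᶠ n : ℕ in atTop, 0 ≤ κ n := by
      filter_upwards [hκ.eventually_gt_atTop 0, eventually_ge_atTop 2] with n h1 h2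
      have h3 : 0 < Real.log n := Real.log_pos (by exact_mod_cast (show 1 < n by omega))
      by_contra h4
      exact absurd (div_nonpos_of_nonpos_of_nonneg (not_le.1 h4).le h3.le) (not_le.2 h1)
    have hall : ∀ p : ℚ × ℚ, ∀ᵐ t : ℝ, 1 < t → 0 ≤ (p.1 : ℝ) → (p.1 : ℝ) ≤ 1 → 0 ≤ (p.2 : ℝ) →
        (p.2 : ℝ) < min (1 / 3) (2 / 3 * (1 - (p.1 : ℝ))) →
        ∃ n₀ : ℕ, ∀ n : ℕ, n₀ ≤ n → ∀ A : ℕ, 1 ≤ A → |(A : ℝ) - t ^ κ n| ≤ (t ^ κ n) ^ (p.2 : ℝ) →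
          Big A p.1 := by
      intro p
      by_cases hp : 0 ≤ (p.1 : ℝ) ∧ (p.1 : ℝ) ≤ 1 ∧ 0 ≤ (p.2 : ℝ) ∧
          (p.2 : ℝ) < min (1 / 3) (2 / 3 * (1 - (p.1 : ℝ)))
      · filter_upwards [Pool.Agent.X16.NW.ae_rpow {A : ℕ | 1 ≤ A ∧ ¬ Big A (p.1 : ℝ)} (fun k : ℕ => (k : ℝ))
          (expo_nonneg p.1) (hcount p.1 hp.1 hp.2.1) κ hκ (p.2 : ℝ) hp.2.2.1 (expo_lt hp.2.2.2)]
          with t ht ht1 _ _ _ _
        obtain ⟨n₀, hn⟩ := ht ht1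
        refine ⟨n₀, fun n hn1 A hA hw => ?_⟩
        by_contra hcon
        exact absurd (hn n hn1 A ⟨hA, hcon⟩) (not_lt.2 hw)
      · exact Eventually.of_forall (fun t _ h1 h2 h3 h4 => absurd ⟨h1, h2, h3, h4⟩ hp)
    filter_upwards [ae_all_iff.2 hall] with t ht ht1 ζ θ h0 h1 hθ0 hlt
    have h2 := hlt.trans_le (min_le_left _ _)
    have h3 := hlt.trans_le (min_le_right _ _)
    obtain ⟨ζ', hz1, hz2⟩ := exists_rat_btwn (show ζ < min 1 (1 - 3 / 2 * θ) from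
      lt_min h1 (by linarith))
    have hz3 := hz2.trans_le (min_le_left _ _)
    have hz4 := hz2.trans_le (min_le_right _ _)
    obtain ⟨θ', ht2, ht3⟩ := exists_rat_btwn
      (show θ < min (1 / 3) (2 / 3 * (1 - (ζ' : ℝ))) from lt_min h2 (by linarith))
    obtain ⟨n₀, hn⟩ := ht (ζ', θ') ht1 (by simp only; linarith) (by simp only; linarith)
      (by simp only; linarith) (by simpa using ht3)
    obtain ⟨n₁, hn1⟩ := hk0.exists_forall_of_atTop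
    refine ⟨max n₀ n₁, fun n hn2 A hA hw => ?_⟩
    have h5 : 1 ≤ t ^ κ n := Real.one_le_rpow ht1.le (hn1 n ((le_max_right _ _).trans hn2))
    have hb := hn n ((le_max_left _ _).trans hn2) A hA
      (hw.trans (Real.rpow_le_rpow_of_exponent_le h5 ht2.le))
    have hA1 : (1 : ℝ) ≤ A := by exact_mod_cast hA
    exact big_of_den hA fun X Y hXY =>
      lt_of_le_of_lt (Real.rpow_le_rpow_of_exponent_le hA1 hz1.le) (hb X Y hXY).1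

end Pool.Agent.Results.MP_8e0b0b_nt.RealPowers
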