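import Pool.Agent.X39.Win.Basic
import Pool.Agent.Results.MP_8e0b0b_nt.SmallPointsAreRare

/-!
# Short intervals in which NO curve `X³ + Y³ = A` has a small rational point

`C_A : X³ + Y³ = A`. Let `v ≥ 1` be a sequence with exponent of convergence at most `τ` (for
`v_n = n ^ k` this is `1 / k`, for `v_n = b ^ n` it is `0`). For all `α > 0` outside a set of small
Hausdorff dimension, for all large `n`, ALL integers `A` with `|A - α v_n| ≤ v_n ^ θ` have the property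
that all rational points of `C_A` other than `𝒪`, in particular all members of all generating sets, have
denominators larger than `A ^ ζ` and numerators with `max (|x|, |y|) ^ 3 > A ^ (1 + 3 ζ) / 2`. These are
almost all `α` if `τ + θ < min (1 / 3, 2 (1 - ζ) / 3)`.
-/

set_option autoImplicit false

open MeasureTheory

namespace Pool.Agent.Results.MP_8e0b0b_nt.WindowsWithoutSmallPoints

open SmallPointsAreRare Finset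

/-- the exponent of convergence of the sequence `v` is at most `τ` -/
def ExpLe (v : ℕ → ℝ) (τ : ℝ) : Prop := ∀ t : ℝ, τ < t → Summable (fun n : ℕ => (v n) ^ (-t))

/-- all rational points of `X³ + Y³ = A` have denominators larger than `A ^ ζ` and numerators with
`max (|x|, |y|) ^ 3 > A ^ (1 + 3 ζ) / 2` -/
def Big (A : ℕ) (ζ : ℝ) : Prop :=
  ∀ X Y : ℚ, X ^ 3 + Y ^ 3 = (A : ℚ) → (A : ℝ) ^ ζ < X.den ∧ (A : ℝ) ^ ζ < Y.den ∧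
    (A : ℝ) ^ (1 + 3 * ζ) / 2 < (max |(X.num : ℝ)| |(Y.num : ℝ)|) ^ 3

/-- for all large `n`, all integers `A` with `|A - α v_n| ≤ v_n ^ θ` are `Big` -/
def AllBig (v : ℕ → ℝ) (θ ζ α : ℝ) : Prop :=
  ∃ n₀ : ℕ, ∀ n : ℕ, n₀ ≤ n → ∀ A : ℕ, 1 ≤ A → |(A : ℝ) - α * v n| ≤ v n ^ θ → Big A ζ

theorem big_of_den {A : ℕ} {ζ : ℝ} (hA : 1 ≤ A)
    (h : ∀ X Y : ℚ, X ^ 3 + Y ^ 3 = (A : ℚ) → (A : ℝ) ^ ζ < X.den) : Big A ζ := by
  intro X Y hXY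
  have h1 := h X Y hXY
  have h2 := Pool.Agent.X236.SC.dens hXY
  refine ⟨h1, by rw [h2]; exact h1, ?_⟩
  have h3 := Pool.Agent.X236.SC.eqn hXY
  have h4 : (X.num : ℝ) ^ 3 + (Y.num : ℝ) ^ 3 = (A : ℝ) * (X.den : ℝ) ^ 3 := by exact_mod_cast h3
  have hA0 : (0 : ℝ) < A := by exact_mod_cast hA
  have h5 : ((A : ℝ) ^ ζ) ^ 3 < (X.den : ℝ) ^ 3 :=
    pow_lt_pow_left₀ h1 (by positivity) (by norm_num)
  have h6 : (X.num : ℝ) ^ 3 ≤ (max |(X.num : ℝ)| |(Y.num : ℝ)|) ^ 3 := by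
    calc (X.num : ℝ) ^ 3 ≤ |(X.num : ℝ)| ^ 3 := by
          rw [← abs_pow]
          exact le_abs_self _
      _ ≤ _ := pow_le_pow_left₀ (abs_nonneg _) (le_max_left _ _) 3
  have h7 : (Y.num : ℝ) ^ 3 ≤ (max |(X.num : ℝ)| |(Y.num : ℝ)|) ^ 3 := by
    calc (Y.num : ℝ) ^ 3 ≤ |(Y.num : ℝ)| ^ 3 := by
          rw [← abs_pow]
          exact le_abs_self _
      _ ≤ _ := pow_le_pow_left₀ (abs_nonneg _) (le_max_right _ _) 3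
  have h8 : (A : ℝ) ^ (1 + 3 * ζ) = A * ((A : ℝ) ^ ζ) ^ 3 := by
    rw [Real.rpow_add hA0, Real.rpow_one, mul_comm 3 ζ, Real.rpow_mul hA0.le]
    norm_cast
  rw [h8]
  nlinarith

theorem count (ζ : ℝ) (h0 : 0 ≤ ζ) (h1 : ζ ≤ 1) (ε : ℝ) (hε : 0 < ε) : ∃ C : ℝ, ∀ X : ℕ, 1 ≤ X →
    {A : ℕ | A ∈ {A : ℕ | 1 ≤ A ∧ ¬ Big A ζ} ∧ (A : ℝ) ≤ X}.Finite ∧
    ({A : ℕ | A ∈ {A : ℕ | 1 ≤ A ∧ ¬ Big A ζ} ∧ (A : ℝ) ≤ X}.ncard : ℝ) ≤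
      C * (X : ℝ) ^ (max (2 / 3) (1 / 3 + 2 / 3 * ζ) + ε) := by
  classical
  obtain ⟨C, hC⟩ := SmallPointsAreRare.result ε hε
  refine ⟨|C| * 2, fun X hX => ?_⟩
  have hX0 : (0 : ℝ) < X := by exact_mod_cast hX
  have hX1 : (1 : ℝ) ≤ X := by exact_mod_cast hX
  set Z : ℕ := ⌊(X : ℝ) ^ ζ⌋₊ with hZ
  have hZX : (Z : ℝ) ≤ (X : ℝ) ^ ζ := Nat.floor_le (by positivity)
  have hZN : Z ≤ X := by
    have h2 : (X : ℝ) ^ ζ ≤ X := by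
      calc (X : ℝ) ^ ζ ≤ (X : ℝ) ^ (1 : ℝ) := Real.rpow_le_rpow_of_exponent_le hX1 h1
        _ = X := Real.rpow_one _
    exact_mod_cast hZX.trans h2
  have hsub : {A : ℕ | A ∈ {A : ℕ | 1 ≤ A ∧ ¬ Big A ζ} ∧ (A : ℝ) ≤ X} ⊆
      (((Icc 1 X).filter (fun A : ℕ =>
        ¬ ∀ X Y : ℚ, X ^ 3 + Y ^ 3 = (A : ℚ) → Large A Z X Y) : Finset ℕ) : Set ℕ) := by
    rintro A ⟨⟨hA1, hA2⟩, hA3⟩
    have hAX : A ≤ X := by exact_mod_cast hA3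
    rw [mem_coe, mem_filter, mem_Icc]
    refine ⟨⟨hA1, hAX⟩, fun hL => hA2 (big_of_den hA1 fun U V hUV => ?_)⟩
    have h3 : Z < U.den := (hL U V hUV).1
    have h4 : (A : ℝ) ^ ζ ≤ (X : ℝ) ^ ζ := Real.rpow_le_rpow (Nat.cast_nonneg _) hA3 h0
    refine lt_of_le_of_lt h4 ?_
    exact (Nat.floor_lt (by positivity)).1 h3
  refine ⟨(Finset.finite_toSet _).subset hsub, ?_⟩
  have h5 : (({A : ℕ | A ∈ {A : ℕ | 1 ≤ A ∧ ¬ Big A ζ} ∧ (A : ℝ) ≤ X}.ncard : ℕ) : ℝ) ≤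
      C * (X : ℝ) ^ ε * ((X : ℝ) ^ (2 / 3 : ℝ) + (X : ℝ) ^ (1 / 3 : ℝ) * (Z : ℝ) ^ (2 / 3 : ℝ)) := by
    refine le_trans ?_ (hC X Z hX hZN)
    have h6 := Set.ncard_le_ncard hsub (Finset.finite_toSet _)
    rw [Set.ncard_coe_finset] at h6
    exact_mod_cast h6
  refine h5.trans ?_
  have h7 : (X : ℝ) ^ (2 / 3 : ℝ) ≤ (X : ℝ) ^ (max (2 / 3) (1 / 3 + 2 / 3 * ζ)) :=
    Real.rpow_le_rpow_of_exponent_le hX1 (le_max_left _ _)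
  have h8 : (X : ℝ) ^ (1 / 3 : ℝ) * (Z : ℝ) ^ (2 / 3 : ℝ) ≤
      (X : ℝ) ^ (max (2 / 3) (1 / 3 + 2 / 3 * ζ)) := by
    calc (X : ℝ) ^ (1 / 3 : ℝ) * (Z : ℝ) ^ (2 / 3 : ℝ)
        ≤ (X : ℝ) ^ (1 / 3 : ℝ) * ((X : ℝ) ^ ζ) ^ (2 / 3 : ℝ) :=
          mul_le_mul_of_nonneg_left (Real.rpow_le_rpow (Nat.cast_nonneg _) hZX (by norm_num))
            (by positivity)
      _ = (X : ℝ) ^ (1 / 3 + 2 / 3 * ζ) := by
          rw [← Real.rpow_mul hX0.le, ← Real.rpow_add hX0]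
          ring_nf
      _ ≤ _ := Real.rpow_le_rpow_of_exponent_le hX1 (le_max_right _ _)
  calc C * (X : ℝ) ^ ε * ((X : ℝ) ^ (2 / 3 : ℝ) + (X : ℝ) ^ (1 / 3 : ℝ) * (Z : ℝ) ^ (2 / 3 : ℝ))
      ≤ |C| * (X : ℝ) ^ ε * ((X : ℝ) ^ (2 / 3 : ℝ) + (X : ℝ) ^ (1 / 3 : ℝ) * (Z : ℝ) ^ (2 / 3 : ℝ)) := by
        refine mul_le_mul_of_nonneg_right ?_ (by positivity)
        exact mul_le_mul_of_nonneg_right (le_abs_self C) (by positivity)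
    _ ≤ |C| * (X : ℝ) ^ ε * ((X : ℝ) ^ (max (2 / 3) (1 / 3 + 2 / 3 * ζ)) +
          (X : ℝ) ^ (max (2 / 3) (1 / 3 + 2 / 3 * ζ))) :=
        mul_le_mul_of_nonneg_left (add_le_add h7 h8) (by positivity)
    _ = |C| * 2 * (X : ℝ) ^ (max (2 / 3) (1 / 3 + 2 / 3 * ζ) + ε) := by
        rw [Real.rpow_add hX0]
        ring

/-- **Theorem.** Let `0 ≤ ζ ≤ 1` and let `v ≥ 1` be a sequence with exponent of convergence at most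
`τ`. (1) For each `θ < 1` and all `α > 0` outside a set of Hausdorff dimension at most
`(max (2 / 3, 1 / 3 + 2 ζ / 3) + τ) / (1 - θ)`, for all large `n`, all rational points of `X³ + Y³ = A`
have denominators larger than `A ^ ζ` and numerators with `max (|x|, |y|) ^ 3 > A ^ (1 + 3 ζ) / 2`, for
ALL integers `A ≥ 1` with `|A - α v_n| ≤ v_n ^ θ`. (2) If `τ + θ < min (1 / 3, 2 (1 - ζ) / 3)` these are
almost all `α`. (3) For almost all `α > 0` this holds for all `ζ` and `θ` with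
`0 ≤ ζ < 1` and `τ + θ < min (1 / 3, 2 (1 - ζ) / 3)` at once. (4) The sequences `v_n = (n + 1) ^ k` and `v_n = b ^ n`
have exponent of convergence at most `1 / k` and `0`. -/
theorem result :
    (∀ (ζ : ℝ) (v : ℕ → ℝ) (τ θ : ℝ), 0 ≤ ζ → ζ ≤ 1 → (∀ n, 1 ≤ v n) → 0 ≤ τ → ExpLe v τ → θ < 1 →
      (∃ E : Set ℝ, dimH E ≤ ENNReal.ofReal ((max (2 / 3) (1 / 3 + 2 / 3 * ζ) + τ) / (1 - θ)) ∧
        ∀ α : ℝ, 0 < α → α ∉ E → AllBig v θ ζ α) ∧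
      (τ + θ < min (1 / 3) (2 / 3 * (1 - ζ)) → ∀ᵐ α : ℝ, 0 < α → AllBig v θ ζ α)) ∧
    (∀ (v : ℕ → ℝ) (τ : ℝ), (∀ n, 1 ≤ v n) → 0 ≤ τ → ExpLe v τ →
      ∀ᵐ α : ℝ, 0 < α → ∀ ζ θ : ℝ, 0 ≤ ζ → ζ < 1 → τ + θ < min (1 / 3) (2 / 3 * (1 - ζ)) →
        AllBig v θ ζ α) ∧
    (∀ k : ℝ, 0 < k → ExpLe (fun n : ℕ => ((n : ℝ) + 1) ^ k) (1 / k)) ∧
    (∀ b : ℝ, 1 < b → ExpLe (fun n : ℕ => b ^ n) 0) := by
  have main : ∀ (ζ : ℝ) (v : ℕ → ℝ) (τ θ : ℝ), 0 ≤ ζ → ζ ≤ 1 → (∀ n, 1 ≤ v n) → 0 ≤ τ →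
      ExpLe v τ → θ < 1 →
      (∃ E : Set ℝ, dimH E ≤ ENNReal.ofReal ((max (2 / 3) (1 / 3 + 2 / 3 * ζ) + τ) / (1 - θ)) ∧
        ∀ α : ℝ, 0 < α → α ∉ E → AllBig v θ ζ α) ∧
      (τ + θ < min (1 / 3) (2 / 3 * (1 - ζ)) → ∀ᵐ α : ℝ, 0 < α → AllBig v θ ζ α) := by
    intro ζ v τ θ h0 h1 hv hτ hE hθ
    obtain ⟨E, hE1, hE2⟩ := Pool.Agent.X39.Win.windows_nat {A : ℕ | 1 ≤ A ∧ ¬ Big A ζ}
      (fun A : ℕ => (A : ℝ)) (v := v) (s := max (2 / 3) (1 / 3 + 2 / 3 * ζ)) (τ := τ) (θ := θ)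
      hv hτ hE (le_trans (by norm_num) (le_max_left _ _)) hθ (fun ε hε => count ζ h0 h1 ε hε)
    have key : ∀ α : ℝ, 0 < α → α ∉ E → AllBig v θ ζ α := by
      intro α hα hαE
      obtain ⟨n₀, hn⟩ := hE2 α hα hαE
      refine ⟨n₀, fun n hn1 A hA hw => ?_⟩
      by_contra hcon
      exact absurd hw (not_le.2 (hn n hn1 A ⟨hA, hcon⟩))
    refine ⟨⟨E, hE1, key⟩, fun hlt => Pool.Agent.X39.Win.ae_of hE1 ?_ key⟩
    rw [div_lt_one (by linarith)]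
    have h2 := hlt.trans_le (min_le_left _ _)
    have h3 := hlt.trans_le (min_le_right _ _)
    rcases max_choice (2 / 3 : ℝ) (1 / 3 + 2 / 3 * ζ) with h | h <;> rw [h] <;> linarith
  refine ⟨main, ?_, fun κ hκ => Pool.Agent.Y854.GM.expLe_pow κ hκ,
    fun b hb => Pool.Agent.Y854.GM.expLe_geom b hb⟩
  intro v τ hv hτ hE
  have hall : ∀ p : ℚ × ℚ, ∀ᵐ α : ℝ, 0 < α → 0 ≤ (p.1 : ℝ) → (p.1 : ℝ) ≤ 1 →
      τ + (p.2 : ℝ) < min (1 / 3) (2 / 3 * (1 - (p.1 : ℝ))) → AllBig v p.2 p.1 α := by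
    intro p
    by_cases hp : 0 ≤ (p.1 : ℝ) ∧ (p.1 : ℝ) ≤ 1 ∧
        τ + (p.2 : ℝ) < min (1 / 3) (2 / 3 * (1 - (p.1 : ℝ)))
    · have h2 := hp.2.2.trans_le (min_le_left _ _)
      filter_upwards [(main p.1 v τ p.2 hp.1 hp.2.1 hv hτ hE (by linarith)).2 hp.2.2]
        with α hα hα0 _ _ _
      exact hα hα0
    · exact Filter.Eventually.of_forall (fun α _ h1 h2 h3 => absurd ⟨h1, h2, h3⟩ hp)
  filter_upwards [ae_all_iff.2 hall] with α hα hα0 ζ θ h0 h1 hlt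
  have h2 := hlt.trans_le (min_le_left _ _)
  have h3 := hlt.trans_le (min_le_right _ _)
  obtain ⟨ζ', hz1, hz2⟩ := exists_rat_btwn (show ζ < min 1 (1 - 3 / 2 * (τ + θ)) from
    lt_min h1 (by linarith))
  have hz3 := hz2.trans_le (min_le_left _ _)
  have hz4 := hz2.trans_le (min_le_right _ _)
  obtain ⟨θ', ht1, ht2⟩ := exists_rat_btwn
    (show θ < min (1 / 3) (2 / 3 * (1 - (ζ' : ℝ))) - τ from by
      rw [lt_sub_iff_add_lt, add_comm]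
      exact lt_min h2 (by linarith))
  obtain ⟨n₀, hn⟩ := hα (ζ', θ') hα0 (by simp only; linarith) (by simp only; linarith)
    (by simp only; linarith)
  refine ⟨n₀, fun n hn1 A hA hw => ?_⟩
  have hb := hn n hn1 A hA (hw.trans (Real.rpow_le_rpow_of_exponent_le (hv n) ht1.le))
  have hA1 : (1 : ℝ) ≤ A := by exact_mod_cast hA
  exact big_of_den hA fun X Y hXY =>
    lt_of_le_of_lt (Real.rpow_le_rpow_of_exponent_le hA1 hz1.le) (hb X Y hXY).1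

end Pool.Agent.Results.MP_8e0b0b_nt.WindowsWithoutSmallPoints
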